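import Pool.Agent.Helper15.FQ.Main4
import Pool.Agent.Helper15.FQ.Assembly

set_option autoImplicit false
open Set Topology Filter Module

namespace Pool.Agent.Results.MP_74810d_gt.SphereProduct
open Pool.Agent.Y498.FQ Pool.Agent.Helper15.FQ Pool.Agent.Helper15.FQ4

/-- the four-torus mapped with degree one to the product of two two-spheres -/
noncomputable def tor4 (y : Fin 4 → ℝ) : S2 × S2 :=
  (ofCR (e2n (y 0) (y 1)) (e2n_rr _ _), ofCR (e2n (y 2) (y 3)) (e2n_rr _ _))

theorem tor4_cont : Continuous tor4 := by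
  have h0 : Continuous (fun y : Fin 4 → ℝ => e2n (y 0) (y 1)) :=
    e2n_cont.comp (f := fun y : Fin 4 → ℝ => (y 0, y 1)) (by fun_prop)
  have h1 : Continuous (fun y : Fin 4 → ℝ => e2n (y 2) (y 3)) :=
    e2n_cont.comp (f := fun y : Fin 4 → ℝ => (y 2, y 3)) (by fun_prop)
  exact (ofCR_cont h0 _).prodMk (ofCR_cont h1 _)

theorem tor4_int (y : Fin 4 → ℝ) (k : Fin 4 → ℤ) : tor4 (fun j => y j + k j) = tor4 y := by
  unfold tor4
  simp only [e2n_int]

/-- No Hausdorff space with `S² × S²` as a retract is the orbit space of a flow on `ℝ^m`. -/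
theorem retract (Q : Type) [TopologicalSpace Q] [T2Space Q] (i : C(S2 × S2, Q))
    (r : C(Q, S2 × S2)) (hri : ∀ x, r (i x) = x) (m : ℕ) : ¬ IsFlowQuotient m Q := by
  rintro ⟨Φ, hc, h0, hadd, ⟨ψ⟩⟩
  refine not_orbit_torus4 (Q := Q)
    (fun q => ![toCR (r q).1, toCR (r q).2]) ?_ ?_
    (fun y => i (tor4 y)) (i.continuous.comp tor4_cont) ?_ ?_ ?_
    (oflow_of_homeo hc h0 hadd ψ) (ψ.surjective.comp Quot.mk_surjective)
  · rw [continuous_pi_iff]
    intro j
    fin_cases j
    · exact toCR_cont.comp (continuous_fst.comp r.continuous)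
    · exact toCR_cont.comp (continuous_snd.comp r.continuous)
  · intro q j
    fin_cases j
    · exact toCR_ne _
    · exact toCR_ne _
  · intro y k
    simp only [tor4_int]
  · intro y
    simp only [hri]
    exact toCR_ofCR (e2n (y 0) (y 1)) (e2n_rr _ _)
  · intro y
    simp only [hri]
    exact toCR_ofCR (e2n (y 2) (y 3)) (e2n_rr _ _)

theorem isSC4 : IsSCManifold 4 (S2 × S2) := isSCManifold_S2.prod isSCManifold_S2 rfl

/-- **`S² × S²` is not the orbit space of any continuous flow on any `ℝ^m`**, nor is any Hausdorff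
space retracting onto it; so in every dimension `n ≥ 4` there is a simply connected `n`-manifold,
closed if `n ≠ 5`, that is not the orbit space of a flow on a Euclidean space. -/
theorem result :
    (∀ m : ℕ, ¬ IsFlowQuotient m (S2 × S2)) ∧
    (∀ (Q : Type) [TopologicalSpace Q] [T2Space Q] (i : C(S2 × S2, Q)) (r : C(Q, S2 × S2)),
      (∀ x, r (i x) = x) → ∀ m : ℕ, ¬ IsFlowQuotient m Q) ∧
    (∀ n : ℕ, 4 ≤ n → ∃ (Q : Type) (_ : TopologicalSpace Q), IsSCManifold n Q ∧
      (n ≠ 5 → CompactSpace Q) ∧ ∀ m : ℕ, ¬ IsFlowQuotient m Q) := by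
  refine ⟨retract _ (ContinuousMap.id _) (ContinuousMap.id _) (fun _ => rfl),
    fun Q _ _ i r hri m => retract Q i r hri m, fun n hn => ?_⟩
  rcases eq_or_ne n 4 with rfl | h6
  · exact ⟨S2 × S2, inferInstance, isSC4, fun _ => inferInstance,
      retract _ (ContinuousMap.id _) (ContinuousMap.id _) (fun _ => rfl)⟩
  rcases eq_or_ne n 5 with rfl | h7
  · refine ⟨(S2 × S2) × EuclideanSpace ℝ (Fin 1), inferInstance,
      isSC4.prod (isSCManifold_euclidean 1) rfl, fun h => absurd rfl h, ?_⟩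
    have : T2Space ((S2 × S2) × EuclideanSpace ℝ (Fin 1)) := inferInstance
    exact retract _ ⟨fun x => (x, 0), by fun_prop⟩ ⟨Prod.fst, continuous_fst⟩ (fun _ => rfl)
  · obtain ⟨k, rfl⟩ : ∃ k, n = 4 + k := ⟨n - 4, by omega⟩
    have hk : 2 ≤ k := by omega
    have hS := isSCManifold_sphere hk
    have h1 := hS.1
    have h3 := hS.2.2.1
    obtain ⟨p⟩ : Nonempty (Metric.sphere (0 : EuclideanSpace ℝ (Fin (k + 1))) 1) := inferInstance
    refine ⟨(S2 × S2) × Metric.sphere (0 : EuclideanSpace ℝ (Fin (k + 1))) 1, inferInstance,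
      isSC4.prod hS rfl, fun _ => inferInstance, ?_⟩
    exact retract _ ⟨fun x => (x, p), by fun_prop⟩ ⟨Prod.fst, continuous_fst⟩ (fun _ => rfl)

end Pool.Agent.Results.MP_74810d_gt.SphereProduct
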